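import Pool.Agent.OddCover.Lower
import Pool.Agent.OddCover.LowerRank
import Pool.Agent.OddCover.Upper

/-!
Odd covers of the square of the edge set of the complete graph `K_n`: the exact least number of
members for `n ≡ 0, 2, 3, 7 mod 8` (`n ≠ 10`) and general bounds.
-/

set_option autoImplicit false

open Finset Filter Topology

namespace Pool.Agent.Results.MP_cb2837_co.ExactValues

open Pool.Agent.OddCover

lemma exists_cover (n : ℕ) : {m : ℕ | ∃ P : Fin m → Set (Sym2 (Fin n) × Sym2 (Fin n)),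
    IsOddCover n m P}.Nonempty := by
  obtain ⟨m, _, P, hP⟩ := upper_PC (n := n) (PC_eight n) (by omega)
  exact ⟨m, P, hP⟩

lemma number_spec (n : ℕ) : ∃ P : Fin (oddCoverNumber n) → Set (Sym2 (Fin n) × Sym2 (Fin n)),
    IsOddCover n (oddCoverNumber n) P := Nat.sInf_mem (exists_cover n)

lemma number_le {n N k : ℕ} (h : PC N k) (hn : n ≤ N) : oddCoverNumber n ≤ k ^ 2 := by
  obtain ⟨m, hm, P, hP⟩ := upper_PC h hn
  have hmem : m ∈ {m : ℕ | ∃ P : Fin m → Set (Sym2 (Fin n) × Sym2 (Fin n)),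
      IsOddCover n m P} := ⟨P, hP⟩
  exact (Nat.sInf_le hmem).trans hm

lemma le_number {n : ℕ} (hn : 2 ≤ n) : (n / 2) ^ 2 + n % 2 ≤ oddCoverNumber n := by
  obtain ⟨P, hP⟩ := number_spec n
  rcases Nat.even_or_odd' n with ⟨k, hk | hk⟩
  · have h1 : n / 2 = k := by omega
    have h2 : n % 2 = 0 := by omega
    rw [h1, h2]
    exact Gen.lower_even (k := k) (by omega) hP
  · have h1 : n / 2 = k := by omega
    have h2 : n % 2 = 1 := by omega
    rw [h1, h2]
    subst hk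
    exact Gen.lower_odd (k := k) (by omega) hP

/-- Let `g n` be the least number of products of complete bipartite graphs in an odd cover of
`E(K_n) × E(K_n)`.  For all `n ≥ 2`, `⌊n/2⌋² + (n mod 2) ≤ g n ≤ (⌊n/2⌋ + 1)²`;
`g n = (n/2)²` for all `n ≡ 0, 2 mod 8` except `n = 10`; `g n = ((n+1)/2)²` for all `n ≡ 3 mod 4`;
and `g n / n²` tends to `1/4`. -/
theorem result :
    (∀ n : ℕ, 2 ≤ n → (n / 2) ^ 2 + n % 2 ≤ oddCoverNumber n ∧
      oddCoverNumber n ≤ (n / 2 + 1) ^ 2) ∧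
    (∀ n : ℕ, (n % 8 = 0 ∨ n % 8 = 2) → n ≠ 10 → oddCoverNumber n = (n / 2) ^ 2) ∧
    (∀ n : ℕ, n % 4 = 3 → oddCoverNumber n = ((n + 1) / 2) ^ 2) ∧
    Tendsto (fun n : ℕ => (oddCoverNumber n : ℝ) / (n : ℝ) ^ 2) atTop (𝓝 (1 / 4)) := by
  have hU : ∀ n : ℕ, 2 ≤ n → oddCoverNumber n ≤ (n / 2 + 1) ^ 2 := fun n hn =>
    number_le (PC_general n hn) le_rfl
  have hL : ∀ n : ℕ, 2 ≤ n → (n / 2) ^ 2 + n % 2 ≤ oddCoverNumber n := fun n hn => le_number hn
  refine ⟨fun n hn => ⟨hL n hn, hU n hn⟩, ?_, ?_, ?_⟩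
  · intro n hn h10
    have h2 := number_le (n := n) (PC_exact n hn h10) le_rfl
    rcases Nat.eq_zero_or_pos n with rfl | hpos
    · simpa using h2
    · have h1 := hL n (by omega)
      omega
  · intro n hn
    obtain ⟨k, rfl⟩ : ∃ k, n = 2 * k + 1 := ⟨n / 2, by omega⟩
    have h3 : (2 * k + 1 + 1) / 2 = k + 1 := by omega
    have h4 : (2 * k + 1) / 2 + 1 = k + 1 := by omega
    have h2 := hU (2 * k + 1) (by omega)
    obtain ⟨P, hP⟩ := number_spec (2 * k + 1)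
    have h1 := lower (k := k) (by omega) hP
    rw [h4] at h2
    rw [h3]
    exact le_antisymm h2 h1
  · have hlow : Tendsto (fun n : ℕ => ((1 - (n : ℝ)⁻¹) / 2) ^ 2) atTop (𝓝 (1 / 4)) := by
      have h := (tendsto_inv_atTop_nhds_zero_nat (𝕜 := ℝ)).const_sub 1
      have h' := (h.div_const 2).pow 2
      norm_num at h'
      exact h'
    have hupp : Tendsto (fun n : ℕ => ((1 + 2 * (n : ℝ)⁻¹) / 2) ^ 2) atTop (𝓝 (1 / 4)) := by
      have h := ((tendsto_inv_atTop_nhds_zero_nat (𝕜 := ℝ)).const_mul 2).const_add 1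
      have h' := (h.div_const 2).pow 2
      norm_num at h'
      exact h'
    refine tendsto_of_tendsto_of_tendsto_of_le_of_le' hlow hupp ?_ ?_
    · filter_upwards [eventually_ge_atTop 2] with n hn
      have hnpos : (0 : ℝ) < n := by positivity
      have h1 : (((n / 2) ^ 2 + n % 2 : ℕ) : ℝ) ≤ oddCoverNumber n := by exact_mod_cast hL n hn
      have h2 : ((n : ℝ) - 1) / 2 ≤ ((n / 2 : ℕ) : ℝ) := by
        have : n ≤ 2 * (n / 2) + 1 := by omega
        have : (n : ℝ) ≤ 2 * ((n / 2 : ℕ) : ℝ) + 1 := by exact_mod_cast this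
        linarith
      have h3 : (1 : ℝ) ≤ n := by exact_mod_cast (by omega : 1 ≤ n)
      rw [le_div_iff₀ (by positivity)]
      have h4 : ((1 - (n : ℝ)⁻¹) / 2) ^ 2 * (n : ℝ) ^ 2 = (((n : ℝ) - 1) / 2) ^ 2 := by
        field_simp
      rw [h4]
      push_cast at h1
      have h5 : (((n : ℝ) - 1) / 2) ^ 2 ≤ ((n / 2 : ℕ) : ℝ) ^ 2 :=
        pow_le_pow_left₀ (by linarith) h2 2
      have h6 : (0 : ℝ) ≤ ((n % 2 : ℕ) : ℝ) := by positivity
      linarith
    · filter_upwards [eventually_ge_atTop 2] with n hn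
      have hnpos : (0 : ℝ) < n := by positivity
      have h1 : (oddCoverNumber n : ℝ) ≤ (((n / 2 + 1) ^ 2 : ℕ) : ℝ) := by
        exact_mod_cast hU n hn
      have h2 : ((n / 2 + 1 : ℕ) : ℝ) ≤ ((n : ℝ) + 2) / 2 := by
        have : 2 * (n / 2 + 1) ≤ n + 2 := by omega
        have : (2 : ℝ) * ((n / 2 + 1 : ℕ) : ℝ) ≤ n + 2 := by exact_mod_cast this
        linarith
      rw [div_le_iff₀ (by positivity)]
      have h4 : ((1 + 2 * (n : ℝ)⁻¹) / 2) ^ 2 * (n : ℝ) ^ 2 = (((n : ℝ) + 2) / 2) ^ 2 := by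
        field_simp
      rw [h4]
      have h5 : ((n / 2 + 1 : ℕ) : ℝ) ^ 2 ≤ (((n : ℝ) + 2) / 2) ^ 2 :=
        pow_le_pow_left₀ (by positivity) h2 2
      refine h1.trans ?_
      rw [Nat.cast_pow]
      exact h5

end Pool.Agent.Results.MP_cb2837_co.ExactValues
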